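import Pool.Agent.Helper69.TPF.St2

/-!
# Project TPF, module GAS: the lemma of Gaschuetz for tuples
-/

set_option autoImplicit false
set_option linter.unusedSectionVars false

namespace Pool.Agent.Helper61.TPF

open Pool.Agent.Helper69.TPF Finset

open scoped Classical in
/-- the number of all `c` with values in `N` such that `y * c` generates `K` -/
noncomputable def cnt {ι E : Type} [Fintype ι] [Group E] [Fintype E] (N : Subgroup E) (y : ι → E)
    (K : Subgroup E) : ℕ :=
  (Finset.univ.filter fun c : ι → N => Subgroup.closure (Set.range fun i => y i * (c i : E)) = K).card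

open scoped Classical in
/-- the number of all `c` with values in `N` such that `y * c` has values in `K` -/
noncomputable def tot {ι E : Type} [Fintype ι] [Group E] [Fintype E] (N : Subgroup E) (y : ι → E)
    (K : Subgroup E) : ℕ :=
  (Finset.univ.filter fun c : ι → N => ∀ i, y i * (c i : E) ∈ K).card

section

variable {ι E : Type} [Fintype ι] [Group E] [Fintype E] {N : Subgroup E}

lemma genMod_mul {y : ι → E} (hy : GenMod N y) (c : ι → N) :
    GenMod N fun i => y i * (c i : E) := by
  apply genMod_of_le
  intro K h1 h2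
  rw [Subgroup.eq_top_iff']
  intro x
  refine hy.le (fun i => ?_) h2 x
  have h3 := K.mul_mem (h1 i) (K.inv_mem (h2 (c i).2))
  rwa [mul_inv_cancel_right] at h3

lemma cnt_eq_zero {y : ι → E} (hy : GenMod N y) {K : Subgroup E} (hK : K ⊔ N ≠ ⊤) :
    cnt N y K = 0 := by
  classical
  unfold cnt
  rw [Finset.card_eq_zero, Finset.filter_eq_empty_iff]
  intro c _ hc
  apply hK
  rw [← hc]
  exact genMod_mul hy c

open scoped Classical in
lemma tot_eq_sum (y : ι → E) (K : Subgroup E) :
    tot N y K = ∑ K' ∈ Finset.univ.filter (fun K' : Subgroup E => K' ≤ K), cnt N y K' := by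
  unfold tot cnt
  rw [Finset.card_eq_sum_card_fiberwise
    (f := fun c : ι → N => Subgroup.closure (Set.range fun i => y i * (c i : E)))
    (t := Finset.univ.filter (fun K' : Subgroup E => K' ≤ K))]
  · refine Finset.sum_congr rfl fun K' hK' => ?_
    congr 1
    ext c
    simp only [Finset.mem_filter, Finset.mem_univ, true_and, and_iff_right_iff_imp]
    intro hc i
    rw [Finset.mem_filter] at hK'
    apply hK'.2
    rw [← hc]
    exact Subgroup.subset_closure ⟨i, rfl⟩
  · intro c hc
    have hc' : ∀ i, y i * (c i : E) ∈ K := by simpa using hc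
    simp only [Finset.coe_filter, Finset.mem_univ, true_and, Set.mem_ofPred_eq]
    rw [Subgroup.closure_le]
    rintro _ ⟨i, rfl⟩
    exact hc' i

lemma tot_eq [N.Normal] (y y' : ι → E) {K : Subgroup E} (hK : K ⊔ N = ⊤) :
    tot N y K = tot N y' K := by
  classical
  have key : ∀ x : E, ∃ a : N, x * (a : E) ∈ K := by
    intro x
    have hx : x ∈ K ⊔ N := hK ▸ Subgroup.mem_top x
    rw [Subgroup.mem_sup_of_normal_right] at hx
    obtain ⟨k, hk, n, hn, rfl⟩ := hx
    exact ⟨⟨n⁻¹, N.inv_mem hn⟩, by simpa using hk⟩
  choose a ha using fun i => key (y i)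
  choose a' ha' using fun i => key (y' i)
  unfold tot
  refine Finset.card_equiv (Equiv.piCongrRight fun i => Equiv.mulLeft (a' i * (a i)⁻¹)) fun c => ?_
  simp only [Finset.mem_filter, Finset.mem_univ, true_and, Equiv.piCongrRight_apply, Pi.map_apply,
    Equiv.coe_mulLeft]
  refine forall_congr' fun i => ?_
  have h1 : y' i * ((a' i * (a i)⁻¹ * c i : N) : E) =
      (y' i * (a' i : E)) * (y i * (a i : E))⁻¹ * (y i * (c i : E)) := by
    push_cast
    group
  rw [h1]
  exact (K.mul_mem_cancel_left (K.mul_mem (ha' i) (K.inv_mem (ha i)))).symm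

lemma cnt_eq [N.Normal] {y y' : ι → E} (hy : GenMod N y) (hy' : GenMod N y') (K : Subgroup E) :
    cnt N y K = cnt N y' K := by
  classical
  induction K using WellFoundedLT.induction with
  | ind K ih =>
    by_cases hK : K ⊔ N = ⊤
    · have h1 := tot_eq (N := N) y y' hK
      have hs : Finset.univ.filter (fun K' : Subgroup E => K' ≤ K) =
          insert K (Finset.univ.filter (fun K' : Subgroup E => K' < K)) := by
        ext K'
        simp only [Finset.mem_filter, Finset.mem_univ, true_and, Finset.mem_insert]
        exact le_iff_eq_or_lt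
      have hn : K ∉ Finset.univ.filter (fun K' : Subgroup E => K' < K) := by
        simp
      rw [tot_eq_sum, tot_eq_sum, hs, Finset.sum_insert hn, Finset.sum_insert hn] at h1
      have h2 : ∑ K' ∈ Finset.univ.filter (fun K' : Subgroup E => K' < K), cnt N y K' =
          ∑ K' ∈ Finset.univ.filter (fun K' : Subgroup E => K' < K), cnt N y' K' :=
        Finset.sum_congr rfl fun K' hK' => ih K' (Finset.mem_filter.1 hK').2
      omega
    · rw [cnt_eq_zero hy hK, cnt_eq_zero hy' hK]

end

theorem cGAS : St_GAS := by
  intro ι E _ _ _ N _ z y hz hy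
  classical
  have : Fintype ι := Fintype.ofFinite ι
  have : Fintype E := Fintype.ofFinite E
  have hz' : GenMod N z := by
    have hz1 : Subgroup.closure (Set.range z) = ⊤ := hz
    unfold GenMod
    rw [hz1, top_sup_eq]
  have h1 := cnt_eq hy hz' ⊤
  have h2 : 0 < cnt N z ⊤ := by
    unfold cnt
    rw [Finset.card_pos]
    refine ⟨fun _ => 1, ?_⟩
    rw [Finset.mem_filter]
    refine ⟨Finset.mem_univ _, ?_⟩
    have h3 : (fun i => z i * (((fun _ => 1 : ι → N) i : N) : E)) = z := by
      funext i
      simp
    rw [h3]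
    exact hz
  rw [← h1] at h2
  unfold cnt at h2
  rw [Finset.card_pos] at h2
  obtain ⟨c, hc⟩ := h2
  rw [Finset.mem_filter] at hc
  exact ⟨fun i => (c i : E), fun i => (c i).2, hc.2⟩

end Pool.Agent.Helper61.TPF
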